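import Mathlib

/-!
# MP_6ec7bd: the conjectured bound `A_v(0,d) ≤ C_v d + B_v` fails for `v = 10^j`, `j ≥ 5`

For `v = 10^j` one has `C_v = 2^(-2j)`, `B_v = 1 - 2^(-j)`. For `d = 2^m - 1` with `m > j` and
`l < 2^j` the binary expansion of `l d` is that of `l - 1` followed by the `m`-bit complement of
`l - 1`, and does not contain `v`; the expansion of `2^j d` is `1^m 0^j`. So
`A_v(0, 2^m - 1) = 2^j`, which is larger than `C_v d + B_v` for all `m < 3j`. As
`2^(3j-1) - 1 ≥ 2^(2|v|+1)` for `j ≥ 5`, this contradicts the conjecture.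
-/

set_option autoImplicit false

namespace Pool.Agent.Results.MP_6ec7bd_co.ThresholdFails

/-- `|w|_v`: the number of (possibly overlapping) occurrences of `v` as a factor of `w`. -/
def occ (w v : List ℕ) : ℕ :=
  ((List.range w.length).filter fun s => v.isPrefixOf (w.drop s)).length

/-- `(n)_2`: the binary expansion without leading zeros, most significant digit first. -/
def bin (n : ℕ) : List ℕ := (Nat.digits 2 n).reverse

/-- `[w]_2`: the integer that `w` represents in base 2. -/
def val (w : List ℕ) : ℕ := Nat.ofDigits 2 w.reverse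

/-- number of leading zeros -/
def lz (v : List ℕ) : ℕ := (v.takeWhile (· == 0)).length

/-- number of trailing zeros, the `j` in `v = u 0^j` -/
def tz (v : List ℕ) : ℕ := (v.reverse.takeWhile (· == 0)).length

/-- words over `{0,1}` -/
def Binary (v : List ℕ) : Prop := ∀ a ∈ v, a = 0 ∨ a = 1

/-- the set `V` -/
def InV (v : List ℕ) : Prop := Binary v ∧ 2 ≤ v.length ∧ 1 ∈ v

/-- `e_v(n)` -/
def e (v : List ℕ) (n : ℕ) : ℕ := occ (List.replicate (lz v) 0 ++ bin n) v

/-- `A_v(0,d)` -/
noncomputable def A (v : List ℕ) (d : ℕ) : ℕ := sInf {l | 1 ≤ l ∧ Odd (e v (l * d))}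

/-- the pairs `(x, y)` in the definition of `C_v`, `B_v` -/
def Admissible (v x y : List ℕ) : Prop :=
  Binary x ∧ Binary y ∧ x.length = v.length - 1 ∧ y.length = v.length - 1 ∧
    Odd (occ (List.replicate (lz v) 0 ++ x) v + occ (y ++ x) v +
      occ (y ++ List.replicate (tz v) 0) v)

/-- `(x, y)` is the least admissible pair (for words of equal length the lexicographic order is
the order of the integers represented) -/
def IsLeast (v x y : List ℕ) : Prop :=
  Admissible v x y ∧ ∀ x' y', Admissible v x' y' →
    val x < val x' ∨ (val x = val x' ∧ val y ≤ val y')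

/-- `C_v`, from `x = x_min` -/
def C (v x : List ℕ) : ℚ := val x / 2 ^ (v.length - 1 + tz v)

/-- `B_v`, from `x = x_min`, `y = y_min` -/
def B (v x y : List ℕ) : ℚ := val y - 2 ^ tz v * C v x

/-- The statement of Q1. -/
def Conjecture : Prop :=
  ∀ v x y : List ℕ, InV v → v ≠ [1, 1] → IsLeast v x y → ∀ d : ℕ, 2 ^ (2 * v.length + 1) ≤ d →
    (A v d : ℚ) ≤ C v x * d + B v x y ∧
    ((A v d : ℚ) = C v x * d + B v x y ↔
      ∃ k : ℕ, 2 * v.length - 2 ≤ k ∧ d = 2 ^ tz v * (2 ^ k + 1))

/-! ### The word `10^j` -/

/-- `10^j` -/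
def V (j : ℕ) : List ℕ := 1 :: List.replicate j 0

theorem V_length (j : ℕ) : (V j).length = j + 1 := by simp [V]

theorem V_lz (j : ℕ) : lz (V j) = 0 := by simp [lz, V]

theorem V_tz (j : ℕ) : tz (V j) = j := by
  unfold tz V
  rw [List.reverse_cons, List.reverse_replicate, List.takeWhile_append_of_pos]
  · simp
  · intro a ha
    rw [List.eq_of_mem_replicate ha]
    rfl

theorem occ_eq_zero {w v : List ℕ} (h : ¬ v <:+: w) : occ w v = 0 := by
  unfold occ
  rw [List.length_eq_zero_iff, List.filter_eq_nil_iff]
  intro s _ hs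
  rw [List.isPrefixOf_iff_prefix] at hs
  exact h (hs.isInfix.trans (List.drop_suffix s w).isInfix)

/-- arithmetic form of an occurrence of `10^j` -/
theorem val_of_infix {j : ℕ} {w : List ℕ} (hw : ∀ a ∈ w, a < 2) (h : V j <:+: w) :
    ∃ s a b, b < 2 ^ s ∧ val w = 2 ^ (s + j) * (2 * a + 1) + b := by
  obtain ⟨p, q, h⟩ := h
  refine ⟨q.length, val p, val q, ?_, ?_⟩
  · unfold val
    have := Nat.ofDigits_lt_base_pow_length (b := 2) (l := q.reverse) (by norm_num) (by
      intro x hx
      rw [List.mem_reverse] at hx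
      exact hw x (by rw [← h]; simp [hx]))
    rwa [List.length_reverse] at this
  · rw [← h]
    unfold val V
    rw [List.reverse_append, List.reverse_append, List.reverse_cons, List.reverse_replicate,
      Nat.ofDigits_append, Nat.ofDigits_append, Nat.ofDigits_append, List.length_reverse,
      List.length_append, List.length_replicate, Nat.ofDigits_replicate_zero]
    simp only [Nat.ofDigits_singleton, List.length_singleton]
    ring

theorem bin_val (n : ℕ) : val (bin n) = n := by
  unfold val bin
  rw [List.reverse_reverse, Nat.ofDigits_digits]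

theorem bin_lt (n : ℕ) : ∀ a ∈ bin n, a < 2 := by
  intro a ha
  unfold bin at ha
  rw [List.mem_reverse] at ha
  exact Nat.digits_lt_base (by norm_num) ha

theorem no_occ {j m l : ℕ} (hj : 1 ≤ j) (hm : j < m) (hl : 1 ≤ l) (hl' : l < 2 ^ j) :
    ¬ V j <:+: bin (l * (2 ^ m - 1)) := by
  intro h
  obtain ⟨s, a, b, hb, hv⟩ := val_of_infix (bin_lt _) h
  rw [bin_val] at hv
  have hpm : 1 ≤ 2 ^ m := Nat.one_le_two_pow
  have h1 : l * (2 ^ m - 1) + l = l * 2 ^ m := by
    rw [Nat.mul_sub_one]
    have : l ≤ l * 2 ^ m := Nat.le_mul_of_pos_right _ (by omega)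
    omega
  rw [hv] at h1
  rcases Nat.lt_or_ge (s + j) m with hs | hs
  · -- modulo 2 ^ (s + j + 1)
    obtain ⟨t, ht⟩ := Nat.exists_eq_add_of_lt hs
    have h2 : 2 ^ (s + j) + b + l < 2 ^ (s + j + 1) := by
      rw [pow_succ]
      have h3 : b + l < 2 ^ (s + j) := by
        rcases Nat.eq_zero_or_pos s with h0 | h0
        · subst h0
          rw [zero_add]
          rw [pow_zero] at hb
          omega
        · have h4 : 2 ≤ 2 ^ s := by
            calc 2 = 2 ^ 1 := rfl
              _ ≤ 2 ^ s := Nat.pow_le_pow_right (by norm_num) h0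
          have h5 : 2 ≤ 2 ^ j := by
            calc 2 = 2 ^ 1 := rfl
              _ ≤ 2 ^ j := Nat.pow_le_pow_right (by norm_num) hj
          rw [pow_add]
          nlinarith
      omega
    have h3 : (2 ^ (s + j) + b + l) % 2 ^ (s + j + 1) = 0 := by
      have h4 : 2 ^ (s + j) + b + l + 2 ^ (s + j + 1) * a = 2 ^ (s + j + 1) * (l * 2 ^ t) := by
        have : 2 ^ m = 2 ^ (s + j + 1) * 2 ^ t := by
          rw [← pow_add]; congr 1; omega
        rw [this] at h1
        rw [pow_succ] at h1 ⊢
        linarith
      have h5 := congrArg (· % 2 ^ (s + j + 1)) h4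
      simpa using h5
    rw [Nat.mod_eq_of_lt h2] at h3
    omega
  · -- modulo 2 ^ m
    obtain ⟨t, ht⟩ := Nat.exists_eq_add_of_le hs
    have hn : 2 ^ (s + j) < 2 ^ (m + j) := by
      have h4 : 2 ^ (s + j) ≤ l * 2 ^ m := by
        rw [← h1]
        nlinarith [Nat.zero_le (2 ^ (s + j) * a)]
      calc 2 ^ (s + j) ≤ l * 2 ^ m := h4
        _ < 2 ^ j * 2 ^ m := Nat.mul_lt_mul_of_pos_right hl' (by omega)
        _ = 2 ^ (m + j) := by rw [← pow_add, add_comm]
    have hsm : s < m := by
      have := (Nat.pow_lt_pow_iff_right (show 1 < 2 by norm_num)).1 hn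
      omega
    have hb' : b + l < 2 ^ m := by
      have h5 : 2 ^ s ≤ 2 ^ (m - 1) := Nat.pow_le_pow_right (by norm_num) (by omega)
      have h6 : 2 ^ j ≤ 2 ^ (m - 1) := Nat.pow_le_pow_right (by norm_num) (by omega)
      have h7 : 2 ^ m = 2 ^ (m - 1) + 2 ^ (m - 1) := by
        rw [← two_mul, ← pow_succ']; congr 1; omega
      omega
    have h3 : (b + l) % 2 ^ m = 0 := by
      have h4 : b + l + 2 ^ m * (2 ^ t * (2 * a + 1)) = 2 ^ m * l := by
        have : 2 ^ (s + j) = 2 ^ m * 2 ^ t := by
          rw [← pow_add]; congr 1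
        rw [this] at h1
        linarith
      have h5 := congrArg (· % 2 ^ m) h4
      simpa using h5
    rw [Nat.mod_eq_of_lt hb'] at h3
    omega

theorem bin_top (j m : ℕ) (hm : 1 ≤ m) :
    bin (2 ^ j * (2 ^ m - 1)) = List.replicate m 1 ++ List.replicate j 0 := by
  unfold bin
  rw [List.reverse_eq_iff, List.reverse_append, List.reverse_replicate, List.reverse_replicate]
  have hval : Nat.ofDigits 2 (List.replicate j 0 ++ List.replicate m 1) = 2 ^ j * (2 ^ m - 1) := by
    rw [Nat.ofDigits_append, Nat.ofDigits_replicate_zero, List.length_replicate, zero_add]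
    congr 1
    induction m with
    | zero => omega
    | succ m ih =>
      rcases Nat.eq_zero_or_pos m with h0 | h0
      · subst h0; rfl
      · rw [List.replicate_succ, Nat.ofDigits_cons, ih h0, pow_succ]
        have : 1 ≤ 2 ^ m := Nat.one_le_two_pow
        push_cast
        omega
  rw [← hval]
  apply Nat.digits_ofDigits 2 (by norm_num)
  · intro l hl
    rw [List.mem_append] at hl
    rcases hl with h | h
    · rw [List.eq_of_mem_replicate h]; norm_num
    · rw [List.eq_of_mem_replicate h]; norm_num
  · intro h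
    rw [List.getLast_append_of_ne_nil _ (by
      intro h0
      have := congrArg List.length h0
      rw [List.length_replicate] at this
      simp at this
      omega)]
    rw [List.getLast_replicate]
    norm_num

/-- a word with exactly one occurrence of `10^j` at its end -/
theorem occ_one (j : ℕ) (p : List ℕ) (hp : ∀ s < p.length, ¬ V j <+: (p ++ V j).drop s) :
    occ (p ++ V j) (V j) = 1 := by
  unfold occ
  have h1 : (List.range (p ++ V j).length).filter (fun s => (V j).isPrefixOf ((p ++ V j).drop s)) =
      [p.length] := by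
    rw [List.length_append, List.range_add, List.filter_append]
    have h2 : (List.range p.length).filter (fun s => (V j).isPrefixOf ((p ++ V j).drop s)) = [] := by
      rw [List.filter_eq_nil_iff]
      intro s hs h
      rw [List.mem_range] at hs
      rw [List.isPrefixOf_iff_prefix] at h
      exact hp s hs h
    rw [h2, List.nil_append, V_length, List.range_succ_eq_map, List.map_cons, List.filter_cons]
    have h3 : (V j).isPrefixOf ((p ++ V j).drop (p.length + 0)) = true := by
      rw [add_zero, List.drop_left, List.isPrefixOf_iff_prefix]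
    rw [if_pos h3]
    congr 1
    rw [List.filter_eq_nil_iff]
    intro s hs h
    rw [List.mem_map] at hs
    obtain ⟨t, ht, rfl⟩ := hs
    rw [List.mem_map] at ht
    obtain ⟨t', _, rfl⟩ := ht
    rw [List.isPrefixOf_iff_prefix] at h
    have := h.length_le
    rw [List.length_drop, List.length_append, V_length] at this
    simp only [Nat.succ_eq_add_one] at this
    omega
  rw [h1]
  rfl

theorem getElem_append_V (j : ℕ) (p : List ℕ) : ∀ t, 1 ≤ t → t ≤ j →
    (p ++ V j)[p.length + t]? = some 0 := by
  intro t h1 h2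
  rw [List.getElem?_append_right (by omega), Nat.add_sub_cancel_left]
  unfold V
  obtain ⟨t, rfl⟩ : ∃ u, t = u + 1 := ⟨t - 1, by omega⟩
  rw [List.getElem?_cons_succ, List.getElem?_replicate, if_pos (by omega)]

theorem occ_top (j m : ℕ) (hj : 1 ≤ j) (hm : 1 ≤ m) :
    occ (bin (2 ^ j * (2 ^ m - 1))) (V j) = 1 := by
  have h : List.replicate m 1 ++ List.replicate j 0 = List.replicate (m - 1) 1 ++ V j := by
    obtain ⟨m, rfl⟩ : ∃ k, m = k + 1 := ⟨m - 1, by omega⟩
    rw [List.replicate_succ']
    simp [V]
  rw [bin_top j m hm, h]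
  apply occ_one
  intro s hs hpre
  rw [List.length_replicate] at hs
  -- the letter after the first one is a 1, not a 0
  have h1 : (V j)[1]? = some 0 := by
    unfold V
    rw [List.getElem?_cons_succ, List.getElem?_replicate, if_pos (by omega)]
  have h2 : ((List.replicate (m - 1) 1 ++ V j).drop s)[1]? = some 1 := by
    rw [List.getElem?_drop]
    rcases Nat.lt_or_ge (s + 1) (m - 1) with h | h
    · rw [List.getElem?_append_left (by rw [List.length_replicate]; exact h),
        List.getElem?_replicate, if_pos h]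
    · rw [List.getElem?_append_right (by rw [List.length_replicate]; exact h),
        List.length_replicate, show s + 1 - (m - 1) = 0 by omega]
      rfl
  obtain ⟨r, hr⟩ := hpre
  rw [← hr, List.getElem?_append_left (by rw [V_length]; omega), h1] at h2
  exact absurd h2 (by decide)

/-- `A_v(0, 2^m - 1) = 2^j` for `v = 10^j`, `m > j ≥ 1`. -/
theorem A_eq {j m : ℕ} (hj : 1 ≤ j) (hm : j < m) : A (V j) (2 ^ m - 1) = 2 ^ j := by
  have he : ∀ n, e (V j) n = occ (bin n) (V j) := by
    intro n
    unfold e
    rw [V_lz]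
    rfl
  have hmem : 2 ^ j ∈ {l | 1 ≤ l ∧ Odd (e (V j) (l * (2 ^ m - 1)))} := by
    refine ⟨Nat.one_le_two_pow, ?_⟩
    rw [he, occ_top j m hj (by omega)]
    exact odd_one
  apply le_antisymm
  · exact Nat.sInf_le hmem
  · unfold A
    apply le_csInf ⟨_, hmem⟩
    rintro l ⟨h1, h2⟩
    by_contra h
    rw [he, occ_eq_zero (no_occ hj hm h1 (by omega))] at h2
    exact absurd h2 (by decide)

/-! ### The constants for `10^j` -/

/-- `0^(j-1) 1` -/
def X (j : ℕ) : List ℕ := List.replicate (j - 1) 0 ++ [1]

theorem X_val (j : ℕ) : val (X j) = 1 := by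
  unfold val X
  rw [List.reverse_append, List.reverse_replicate, List.reverse_singleton,
    Nat.ofDigits_append, Nat.ofDigits_replicate_zero]
  simp

theorem occ_short {w v : List ℕ} (h : w.length < v.length) : occ w v = 0 :=
  occ_eq_zero fun h' => by have := h'.length_le; omega

theorem occ_nomem {w : List ℕ} {j : ℕ} (h : 1 ∉ w) : occ w (V j) = 0 :=
  occ_eq_zero fun h' => h (h'.subset (by simp [V]))

theorem val_zero {x : List ℕ} (hx : Binary x) (h : val x = 0) : 1 ∉ x := by
  unfold val at h
  have key : ∀ l : List ℕ, Nat.ofDigits 2 l = 0 → 1 ∉ l := by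
    intro l
    induction l with
    | nil => simp
    | cons a l ih =>
      intro h1 h2
      rw [Nat.ofDigits_cons] at h1
      push_cast at h1
      rw [List.mem_cons] at h2
      rcases h2 with h2 | h2
      · omega
      · exact ih (by omega) h2
  intro h1
  exact key _ h (by rw [List.mem_reverse]; exact h1)

theorem eq_replicate_of_nomem {x : List ℕ} (hx : Binary x) (h : 1 ∉ x) :
    x = List.replicate x.length 0 := by
  rw [List.eq_replicate_iff]
  refine ⟨rfl, fun b hb => ?_⟩
  rcases hx b hb with h1 | h1
  · exact h1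
  · exact absurd (h1 ▸ hb) h

theorem eq_X_of_val {j : ℕ} (hj : 1 ≤ j) {x : List ℕ} (hx : Binary x) (hl : x.length = j)
    (h : val x = 1) : x = X j := by
  have h1 : val x = val (X j) := by rw [h, X_val]
  unfold val at h1
  have h2 := Nat.ofDigits_inj_of_len_eq (b := 2) (by norm_num) (L1 := x.reverse)
    (L2 := (X j).reverse) (by simp [X, hl]; omega) (by
      intro l hl
      rw [List.mem_reverse] at hl
      rcases hx l hl with h | h <;> omega) (by
      intro l hl
      rw [List.mem_reverse] at hl
      unfold X at hl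
      rw [List.mem_append] at hl
      rcases hl with h | h
      · rw [List.eq_of_mem_replicate h]; norm_num
      · rw [List.mem_singleton] at h; omega) h1
  exact List.reverse_injective h2

theorem X_binary (j : ℕ) : Binary (X j) := by
  intro a ha
  unfold X at ha
  rw [List.mem_append] at ha
  rcases ha with h | h
  · exact Or.inl (List.eq_of_mem_replicate h)
  · exact Or.inr (by simpa using h)

theorem X_length {j : ℕ} (hj : 1 ≤ j) : (X j).length = j := by
  unfold X
  rw [List.length_append, List.length_replicate, List.length_singleton]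
  omega

theorem isLeast {j : ℕ} (hj : 1 ≤ j) : IsLeast (V j) (X j) (X j) := by
  constructor
  · refine ⟨X_binary j, X_binary j, by rw [X_length hj, V_length]; rfl,
      by rw [X_length hj, V_length]; rfl, ?_⟩
    rw [V_lz, V_tz, List.replicate_zero, List.nil_append]
    have h1 : occ (X j) (V j) = 0 := occ_short (by rw [X_length hj, V_length]; omega)
    have h2 : occ (X j ++ X j) (V j) = 0 := by
      apply occ_eq_zero
      intro h
      obtain ⟨s, a, b, hb, hv⟩ := val_of_infix (by
        intro a ha
        rw [List.mem_append, or_self] at ha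
        rcases X_binary j a ha with h | h <;> omega) h
      have hval : val (X j ++ X j) = 2 ^ j + 1 := by
        unfold val
        rw [List.reverse_append, Nat.ofDigits_append, List.length_reverse, X_length hj]
        have := X_val j
        unfold val at this
        rw [this]
        ring
      rw [hval] at hv
      rcases Nat.eq_zero_or_pos s with h0 | h0
      · subst h0
        rw [pow_zero] at hb
        have hb0 : b = 0 := by omega
        rw [hb0, zero_add, add_zero] at hv
        have h3 : (2 ^ j + 1) % 2 ^ j = 0 := by rw [hv]; simp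
        have h4 : 2 ≤ 2 ^ j := by
          calc 2 = 2 ^ 1 := rfl
            _ ≤ 2 ^ j := Nat.pow_le_pow_right (by norm_num) hj
        rw [Nat.add_mod_left, Nat.mod_eq_of_lt (by omega)] at h3
        omega
      · have h4 : 2 ^ (j + 1) ≤ 2 ^ (s + j) := Nat.pow_le_pow_right (by norm_num) (by omega)
        have h5 : 2 ≤ 2 ^ j := by
          calc 2 = 2 ^ 1 := rfl
            _ ≤ 2 ^ j := Nat.pow_le_pow_right (by norm_num) hj
        rw [pow_succ] at h4
        nlinarith [Nat.zero_le (2 ^ (s + j) * a)]
    have h3 : occ (X j ++ List.replicate j 0) (V j) = 1 := by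
      have : X j ++ List.replicate j 0 = List.replicate (j - 1) 0 ++ V j := by
        unfold X V
        simp
      rw [this]
      apply occ_one
      intro s hs hpre
      rw [List.length_replicate] at hs
      have g1 : (V j)[0]? = some 1 := rfl
      have g2 : ((List.replicate (j - 1) 0 ++ V j).drop s)[0]? = some 0 := by
        rw [List.getElem?_drop, add_zero,
          List.getElem?_append_left (by rw [List.length_replicate]; exact hs),
          List.getElem?_replicate, if_pos hs]
      obtain ⟨r, hr⟩ := hpre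
      rw [← hr, List.getElem?_append_left (by rw [V_length]; omega), g1] at g2
      exact absurd g2 (by decide)
    rw [h1, h2, h3]
    decide
  · rintro x' y' ⟨hx, hy, hxl, hyl, hodd⟩
    rw [V_length, Nat.add_sub_cancel] at hxl hyl
    rw [V_lz, V_tz, List.replicate_zero, List.nil_append, occ_short (by
      rw [V_length, hxl]; omega), zero_add] at hodd
    have hx0 : val x' ≠ 0 := by
      intro h0
      have h1 := eq_replicate_of_nomem hx (val_zero hx h0)
      rw [hxl] at h1
      rw [h1] at hodd
      rw [← two_mul] at hodd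
      exact absurd hodd (by simp)
    by_cases hx1 : val x' = 1
    · right
      refine ⟨by rw [X_val, hx1], ?_⟩
      rw [X_val]
      by_contra hy0
      have hy0 : val y' = 0 := by omega
      have h1 := val_zero hy hy0
      rw [eq_X_of_val hj hx hxl hx1] at hodd
      have h2 := eq_replicate_of_nomem hy h1
      have h3 : occ (y' ++ X j) (V j) = 0 := by
        apply occ_eq_zero
        intro h
        obtain ⟨s, a, b, hb, hv⟩ := val_of_infix (by
          intro a ha
          rw [List.mem_append] at ha
          rcases ha with ha | ha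
          · rcases hy a ha with h | h <;> omega
          · rcases X_binary j a ha with h | h <;> omega) h
        have hval : val (y' ++ X j) = 1 := by
          unfold val
          rw [List.reverse_append, Nat.ofDigits_append]
          have e1 := X_val j
          unfold val at e1 hy0
          rw [e1, hy0]
          simp
        rw [hval] at hv
        have h5 : 2 ≤ 2 ^ (s + j) := by
          calc 2 = 2 ^ 1 := rfl
            _ ≤ 2 ^ (s + j) := Nat.pow_le_pow_right (by norm_num) (by omega)
        nlinarith [Nat.zero_le (2 ^ (s + j) * a)]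
      have h4 : occ (y' ++ List.replicate j 0) (V j) = 0 := by
        apply occ_nomem
        rw [List.mem_append]
        rintro (h | h)
        · exact h1 h
        · exact absurd (List.eq_of_mem_replicate h) (by decide)
      rw [h3, h4] at hodd
      exact absurd hodd (by decide)
    · left
      rw [X_val]
      omega

/-- For `v = 10^j` with `j ≥ 1` and `j < m < 3j` the difference `d = 2^m - 1` violates the bound
`A_v(0,d) ≤ C_v d + B_v`; if moreover `m ≥ 2j + 4` then `d ≥ 2^(2|v|+1)` (such `m` exist for every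
`j ≥ 5`). Hence the conjecture is false. -/
theorem result :
    (∀ j m : ℕ, 1 ≤ j → j < m → m < 3 * j →
      InV (V j) ∧ IsLeast (V j) (X j) (X j) ∧ A (V j) (2 ^ m - 1) = 2 ^ j ∧
      C (V j) (X j) * ((2 ^ m - 1 : ℕ) : ℚ) + B (V j) (X j) (X j) < A (V j) (2 ^ m - 1)) ∧
    (∀ j m : ℕ, 2 * j + 4 ≤ m → 2 ^ (2 * (V j).length + 1) ≤ 2 ^ m - 1) ∧
    ¬ Conjecture := by
  have h1 : ∀ j m : ℕ, 1 ≤ j → j < m → m < 3 * j →
      InV (V j) ∧ IsLeast (V j) (X j) (X j) ∧ A (V j) (2 ^ m - 1) = 2 ^ j ∧
      C (V j) (X j) * ((2 ^ m - 1 : ℕ) : ℚ) + B (V j) (X j) (X j) < A (V j) (2 ^ m - 1) := by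
    intro j m hj hm hm3
    refine ⟨⟨?_, by rw [V_length]; omega, by simp [V]⟩, isLeast hj, A_eq hj hm, ?_⟩
    · intro a ha
      unfold V at ha
      rw [List.mem_cons] at ha
      rcases ha with h | h
      · exact Or.inr h
      · exact Or.inl (List.eq_of_mem_replicate h)
    · rw [A_eq hj hm]
      unfold B C
      rw [X_val, V_tz, V_length, Nat.add_sub_cancel]
      have hp : (0 : ℚ) < 2 ^ j := by positivity
      have e1 : (2 : ℚ) ^ (j + j) = 2 ^ j * 2 ^ j := pow_add _ _ _
      have e2 : ((2 ^ m - 1 : ℕ) : ℚ) = 2 ^ m - 1 := by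
        rw [Nat.cast_sub Nat.one_le_two_pow]
        push_cast
        ring
      have e3 : (2 : ℚ) ^ m * 2 ≤ 2 ^ j * (2 ^ j * 2 ^ j) := by
        rw [← pow_add, ← pow_add, ← pow_succ]
        exact pow_le_pow_right₀ (by norm_num) (by omega)
      have e4 : (2 : ℚ) ≤ 2 ^ j := by
        calc (2 : ℚ) = 2 ^ 1 := by norm_num
          _ ≤ 2 ^ j := pow_le_pow_right₀ (by norm_num) hj
      rw [e1, e2]
      push_cast
      have e5 : (1 : ℚ) / (2 ^ j * 2 ^ j) * (2 ^ m - 1) + (1 - 2 ^ j * (1 / (2 ^ j * 2 ^ j))) =
          (2 ^ m - 1 + 2 ^ j * 2 ^ j - 2 ^ j) / (2 ^ j * 2 ^ j) := by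
        field_simp
        ring
      rw [e5, div_lt_iff₀ (by positivity)]
      nlinarith
  have h2 : ∀ j m : ℕ, 2 * j + 4 ≤ m → 2 ^ (2 * (V j).length + 1) ≤ 2 ^ m - 1 := by
    intro j m hm
    rw [V_length]
    have g1 : 2 ^ (2 * (j + 1) + 1 + 1) ≤ 2 ^ m := Nat.pow_le_pow_right (by norm_num) (by omega)
    rw [pow_succ] at g1
    have g2 : 1 ≤ 2 ^ (2 * (j + 1) + 1) := Nat.one_le_two_pow
    omega
  refine ⟨h1, h2, ?_⟩
  intro hc
  obtain ⟨g1, g2, g3, g4⟩ := h1 5 14 (by norm_num) (by norm_num) (by norm_num)
  have := (hc (V 5) (X 5) (X 5) g1 (by decide) g2 (2 ^ 14 - 1) (h2 5 14 (by norm_num))).1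
  exact absurd g4 (not_lt.2 this)

end Pool.Agent.Results.MP_6ec7bd_co.ThresholdFails
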